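import Pool.Agent.Helper72.OC.Gs
import Pool.Agent.Helper72.OB.Grp
import Pool.Agent.Helper72.OB.Chart

/-!
# OC, blocks K1 and K2: the linear groups of a preorder and their subgroups of determinant one:
flags
-/

set_option autoImplicit false

namespace Pool.Agent.Helper17.OCK

open Pool.Agent.Helper72.OC
open Pool.Agent.Helper72.OB (Pre Gp Supp diagG diagG_val Gp.ext' Gp.map_val Gp.mul_val Gp.incl Pre.cut
  Pre.cut_le map_diagG)
open Pool.Agent.Helper72.OB.ChartAux

variable {n : ℕ}

theorem mem_Gs {s : Prop} {r : Pre n} {R : Type} [CommRing R] {g : Gp r R} :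
    g ∈ Gs s r R ↔ (s → g.1.1.det = 1) := Iff.rfl

theorem det_map {r : Pre n} {R R' : Type} [CommRing R] [CommRing R'] (f : R →+* R') (g : Gp r R) :
    (Gp.map r f g).1.1.det = f g.1.1.det := by
  have h : (Gp.map r f g).1.1 = f.mapMatrix g.1.1 := rfl
  rw [h, RingHom.map_det]

theorem Gs_map_coe {s : Prop} {r : Pre n} {R R' : Type} [CommRing R] [CommRing R'] (f : R →+* R')
    (g : Gs s r R) : (Gs.map s r f g).1 = Gp.map r f g.1 := rfl

/-- the inclusion for the smaller preorder -/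
def GsIncl (s : Prop) {r' r : Pre n} (h : ∀ i j, r'.rel i j → r.rel i j) (R : Type) [CommRing R] :
    Gs s r' R →* Gs s r R where
  toFun g := ⟨Gp.incl h R g.1, g.2⟩
  map_one' := rfl
  map_mul' _ _ := rfl

section Sec

variable {r : Pre n} {o : Fin n} {m : ℕ} (E : Fin m ≃ Cls r o)

/-- the sign correction -/
noncomputable def sgn (R : Type) [CommRing R] (j : Fin m) (k : Fin n) : Rˣ :=
  if k = (E j).1 then
    Units.map (Int.castRingHom R).toMonoidHom (Equiv.Perm.sign (Equiv.swap o (E j).1)) else 1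

theorem sgn_o (R : Type) [CommRing R] (j : Fin m) : sgn E R j o = 1 := by
  unfold sgn
  split_ifs with h
  · rw [← h]; simp
  · rfl

theorem prod_sgn (R : Type) [CommRing R] (j : Fin m) : ∏ k, ((sgn E R j k : Rˣ) : R) =
    ((Equiv.Perm.sign (Equiv.swap o (E j).1) : ℤ) : R) := by
  rw [Finset.prod_eq_single (E j).1]
  · simp [sgn]
  · intro k _ hk
    simp [sgn, hk]
  · intro h
    exact absurd (Finset.mem_univ _) h

theorem map_sgn {R R' : Type} [CommRing R] [CommRing R'] (f : R →+* R') (j : Fin m) (k : Fin n) :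
    Units.map f (sgn E R j k) = sgn E R' j k := by
  unfold sgn
  split_ifs
  · ext
    simp
  · exact map_one _

/-- the section `σ_j` with determinant one -/
noncomputable def sg1 {R : Type} [CommRing R] (j : Fin m) (t : Fin m → R) (ht : t j = 1) :
    Gp r R := sg E j t ht * diagG r (sgn E R j)

theorem det_sg1 {R : Type} [CommRing R] (j : Fin m) (t : Fin m → R) (ht : t j = 1) :
    (sg1 E j t ht).1.1.det = 1 := by
  have h1 : (Matrix.updateCol (1 : Matrix (Fin n) (Fin n) R) (E j).1 (vec E t)).det = 1 := by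
    rw [← Matrix.cramer_apply, Matrix.cramer_one]
    simpa using (vec_E E t j).trans ht
  have h2 : (sg E j t ht).1.1 = sig o (E j).1 (vec E t) := rfl
  rw [sg1, Gp.mul_val, Matrix.det_mul, diagG_val, Matrix.det_diagonal, prod_sgn, h2, sig,
    Matrix.det_permute', h1, mul_one]
  rw [← Int.cast_mul, ← Units.val_mul, Int.units_mul_self]
  simp

theorem sg1_col {R : Type} [CommRing R] (j : Fin m) (t : Fin m → R) (ht : t j = 1) (i : Fin n) :
    (sg1 E j t ht).1.1 i o = (sg E j t ht).1.1 i o := by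
  rw [sg1, Gp.mul_val, diagG_val, Matrix.mul_diagonal, sgn_o, Units.val_one, mul_one]

theorem sg1_E {R : Type} [CommRing R] (j : Fin m) (t : Fin m → R) (ht : t j = 1) (i : Fin m) :
    (sg1 E j t ht).1.1 (E i).1 o = t i := by rw [sg1_col, sg_E]

theorem map_sg1 {R R' : Type} [CommRing R] [CommRing R'] (f : R →+* R') (j : Fin m)
    (t : Fin m → R) (ht : t j = 1) :
    Gp.map r f (sg1 E j t ht) = sg1 E j (fun i => f (t i)) (by rw [ht, map_one]) := by
  rw [sg1, map_mul, map_sg, map_diagG, sg1]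
  congr 2
  funext k
  exact map_sgn E f j k

/-- the element `σ_j⁻¹ g` of the parabolic subgroup -/
noncomputable def qq1 {R : Type} [CommRing R] (j : Fin m) (t : Fin m → R) (ht : t j = 1)
    (g : Gp r R) (hg : ∀ i, g.1.1 (E i).1 o = t i * g.1.1 (E j).1 o) : Gp (r.cut o) R :=
  (diagG (r.cut o) (sgn E R j))⁻¹ * qq E j t ht g hg

theorem incl_diagG {r' r : Pre n} (h : ∀ i j, r'.rel i j → r.rel i j) {R : Type} [CommRing R]
    (u : Fin n → Rˣ) : Gp.incl h R (diagG r' u) = diagG r u := Gp.ext' fun _ _ _ => rfl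

theorem incl_qq1 {R : Type} [CommRing R] (j : Fin m) (t : Fin m → R) (ht : t j = 1)
    (g : Gp r R) (hg : ∀ i, g.1.1 (E i).1 o = t i * g.1.1 (E j).1 o) :
    Gp.incl (r.cut_le o) R (qq1 E j t ht g hg) = (sg1 E j t ht)⁻¹ * g := by
  rw [qq1, map_mul, map_inv, incl_diagG, incl_qq, sg1, mul_inv_rev, mul_assoc]

end Sec

section Cell

variable {Λ : Type} [CommRing Λ] {m : ℕ}

/-- the cell: kill the variables with index less than `j` -/
noncomputable def cellHom (Λ : Type) [CommRing Λ] (j : Fin m) :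
    MvPolynomial {i : Fin m // i ≠ j} Λ →ₐ[Λ] MvPolynomial (Fin (m - 1 - j)) Λ :=
  MvPolynomial.aeval fun i =>
    if h : j < i.1 then MvPolynomial.X ⟨i.1 - j - 1, by omega⟩ else 0

/-- a section of `cellHom` -/
noncomputable def cellSec (Λ : Type) [CommRing Λ] (j : Fin m) :
    MvPolynomial (Fin (m - 1 - j)) Λ →ₐ[Λ] MvPolynomial {i : Fin m // i ≠ j} Λ :=
  MvPolynomial.aeval fun k => MvPolynomial.X ⟨⟨j + 1 + k, by omega⟩, fun h => by
    have := congrArg Fin.val h
    simp only at this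
    omega⟩

theorem cellHom_X_lt (j : Fin m) (i : {i : Fin m // i ≠ j}) (h : i.1 < j) :
    cellHom Λ j (MvPolynomial.X i) = 0 := by
  rw [cellHom, MvPolynomial.aeval_X, dif_neg (not_lt.2 h.le)]

theorem cellHom_comp (j : Fin m) : (cellHom Λ j).comp (cellSec Λ j) = AlgHom.id Λ _ := by
  apply MvPolynomial.algHom_ext
  intro k
  rw [AlgHom.comp_apply, cellSec, MvPolynomial.aeval_X, cellHom, MvPolynomial.aeval_X, dif_pos]
  · simp only [AlgHom.id_apply]
    congr 1
    ext
    simp only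
    omega
  · rw [Fin.lt_def]
    simp only
    omega

theorem cellHom_surj (j : Fin m) : Function.Surjective (cellHom Λ j) := fun x =>
  ⟨cellSec Λ j x, congrArg (fun f => f x) (cellHom_comp (Λ := Λ) j)⟩

theorem cellHom_ker (j : Fin m) (f : MvPolynomial {i : Fin m // i ≠ j} Λ)
    (hf : cellHom Λ j f = 0) (I : Ideal (MvPolynomial {i : Fin m // i ≠ j} Λ))
    (hI : ∀ i : {i : Fin m // i ≠ j}, i.1 < j → MvPolynomial.X i ∈ I) : f ∈ I := by
  have h : (Ideal.Quotient.mkₐ Λ I).comp ((cellSec Λ j).comp (cellHom Λ j)) =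
      Ideal.Quotient.mkₐ Λ I := by
    apply MvPolynomial.algHom_ext
    intro i
    rw [AlgHom.comp_apply, AlgHom.comp_apply]
    rcases lt_or_gt_of_ne i.2 with h1 | h1
    · rw [cellHom_X_lt j i h1, map_zero, map_zero]
      exact (Ideal.Quotient.eq_zero_iff_mem.2 (hI i h1)).symm
    · rw [cellHom, MvPolynomial.aeval_X, dif_pos h1, cellSec, MvPolynomial.aeval_X]
      congr 2
      apply Subtype.ext
      ext
      simp only
      have := Fin.lt_def.1 h1
      omega
  have h2 := congrArg (fun φ => φ f) h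
  simp only [AlgHom.comp_apply, hf, map_zero] at h2
  exact Ideal.Quotient.eq_zero_iff_mem.1 h2.symm

end Cell

section FlagOf

variable (s : Prop) (r : Pre n) (o : Fin n) {Λ : Type} [CommRing Λ]

/-- the coordinates of the generic section -/
noncomputable def tt (Λ : Type) [CommRing Λ] {m : ℕ} (j : Fin m) (i : Fin m) :
    MvPolynomial {i : Fin m // i ≠ j} Λ :=
  if h : i = j then 1 else MvPolynomial.X ⟨i, h⟩

theorem tt_self {m : ℕ} (j : Fin m) : tt Λ j j = 1 := dif_pos rfl

theorem tt_ne {m : ℕ} (j : Fin m) (i : {i : Fin m // i ≠ j}) : tt Λ j i.1 = MvPolynomial.X i :=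
  dif_neg i.2

/-- in the class of `o` the column `o` is multiplied by the entry `q_oo` -/
theorem mul_col {R : Type} [CommRing R] (g : Gp r R) (q : Gp (r.cut o) R) (i : Cls r o) :
    (g * Gp.incl (r.cut_le o) R q).1.1 i.1 o = g.1.1 i.1 o * q.1.1 o o := by
  have h0 : (Gp.incl (r.cut_le o) R q).1.1 = q.1.1 := rfl
  rw [Gp.mul_val, h0, Matrix.mul_apply]
  apply Finset.sum_eq_single o
  · intro k _ hk
    by_cases h1 : r.rel i.1 k
    · by_cases h2 : r.rel k o
      · have h3 : ¬ (r.cut o).rel k o := fun h => h.2 ⟨rfl, hk, r.trans i.2.2 h1⟩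
        rw [(q.2 k o h3).1, mul_zero]
      · rw [(q.2 k o fun h => h2 h.1).1, mul_zero]
    · rw [(g.2 i.1 k h1).1, zero_mul]
  · intro h
    exact absurd (Finset.mem_univ _) h

theorem GsIncl_inj {r' r : Pre n} (h : ∀ i j, r'.rel i j → r.rel i j) (R : Type) [CommRing R] :
    Function.Injective (GsIncl s h R) := by
  intro a b hab
  apply Subtype.ext
  apply Subtype.ext
  exact congrArg (fun x => x.1.1) hab

/-- the flag of the group of a preorder given by an index `o`, for the group of invertible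
matrices and for the group of matrices of determinant one -/
theorem flag_of {G Q : GSch Λ} (hG : IsGs s r G) (hQ : IsGs s (r.cut o) Q) :
    Nonempty (Flag Q G) := by
  classical
  obtain ⟨eG, hG⟩ := hG
  obtain ⟨eQ, hQ⟩ := hQ
  obtain ⟨m, ⟨E0⟩⟩ := Finite.exists_equiv_fin (Cls r o)
  obtain ⟨E, -⟩ : ∃ E : Fin m ≃ Cls r o, True := ⟨E0.symm, trivial⟩
  have hmem : ∀ (R : Type) [CommRing R] (j : Fin m) (t : Fin m → R) (ht : t j = 1),
      sg1 E j t ht ∈ Gs s r R := fun R _ j t ht _ => det_sg1 E j t ht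
  -- the inclusion
  obtain ⟨inc, hinc⟩ : ∃ inc : ∀ {R : Type} [CommRing R] [Algebra Λ R], Q.Pt R →* G.Pt R,
      ∀ {R : Type} [CommRing R] [Algebra Λ R] (q : Q.Pt R),
        eG R (inc q) = GsIncl s (r.cut_le o) R (eQ R q) :=
    ⟨fun {R} _ _ => (eG R).symm.toMonoidHom.comp ((GsIncl s (r.cut_le o) R).comp
      (eQ R).toMonoidHom), fun {R} _ _ q => (eG R).apply_symm_apply _⟩
  have hcol : ∀ (R : Type) [CommRing R] [Algebra Λ R] (g : G.Pt R) (q : Q.Pt R) (i : Fin m),
      (eG R (g * inc q)).1.1.1 (E i).1 o = (eG R g).1.1.1 (E i).1 o * (eQ R q).1.1.1 o o := by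
    intro R _ _ g q i
    rw [map_mul, hinc]
    exact mul_col r o (eG R g).1 (eQ R q).1 (E i)
  have hnat : ∀ (R R' : Type) [CommRing R] [Algebra Λ R] [CommRing R'] [Algebra Λ R']
      (f : R →ₐ[Λ] R') (g : G.Pt R) (i j : Fin n),
      (eG R' (G.map f g)).1.1.1 i j = f ((eG R g).1.1.1 i j) := by
    intro R R' _ _ _ _ f g i j
    rw [hG]
    rfl
  -- the sections
  obtain ⟨σ, hσ⟩ : ∃ σ : ∀ j : Fin m, G.Pt (MvPolynomial {i : Fin m // i ≠ j} Λ),
      ∀ j, (eG _ (σ j)).1 = sg1 E j (tt Λ j) (tt_self j) :=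
    ⟨fun j => (eG _).symm ⟨_, hmem _ j (tt Λ j) (tt_self j)⟩, fun j => by
      rw [MulEquiv.apply_symm_apply]⟩
  have hσE : ∀ (j i : Fin m), (eG _ (σ j)).1.1.1 (E i).1 o = tt Λ j i := by
    intro j i
    rw [hσ, sg1_E]
  have hσmap : ∀ (j : Fin m) (R : Type) [CommRing R] [Algebra Λ R]
      (u : MvPolynomial {i : Fin m // i ≠ j} Λ →ₐ[Λ] R),
      (eG R (G.map u (σ j))).1 = sg1 E j (fun i => u (tt Λ j i)) (by rw [tt_self, map_one]) := by
    intro j R _ _ u
    rw [hG, Gs_map_coe, hσ, map_sg1]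
    rfl
  refine ⟨{
    inc := inc
    inc_nat := ?_
    m := m
    w := fun i {R} _ _ g => (eG R g).1.1.1 (E i).1 o
    w_nat := fun i {R R'} _ _ _ _ f g => hnat R R' f g _ _
    χ := fun {R} _ _ q => (eQ R q).1.1.1 o o
    w_mul := fun i {R} _ _ g q => hcol R g q i
    c := m
    pos := Fin.pos (E.symm ⟨o, r.refl o, r.refl o⟩)
    e := id
    cover := ?_
    Γ := fun j => MvPolynomial {i : Fin m // i ≠ j} Λ
    ringΓ := fun j => inferInstance
    algΓ := fun j => inferInstance
    σ := σ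
    w_σ := ?_
    gen := ?_
    chart := ?_
    dim := fun j => m - 1 - j
    cell := fun j => cellHom Λ j
    cell_surj := fun j => cellHom_surj j
    cell_zero := ?_
    cell_ker := ?_ }⟩
  · intro R R' _ _ _ _ f q
    apply (eG R').injective
    rw [hG, hinc, hinc, hQ]
    rfl
  · intro i
    refine ⟨0, fun j => if j = i then 1 else 0, fun j => ?_, fun {R} _ _ g => ?_⟩
    · show (if j = i then (1 : MvPolynomial (Fin m) Λ) else 0).IsHomogeneous 0
      split_ifs
      · exact MvPolynomial.isHomogeneous_one _ _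
      · exact MvPolynomial.isHomogeneous_zero _ _ _
    · rw [Finset.sum_eq_single i]
      · simp
      · intro j _ hj
        simp [hj]
      · intro h
        exact absurd (Finset.mem_univ _) h
  · intro j
    exact (hσE j j).trans (tt_self j)
  · intro j
    rw [eq_top_iff, ← MvPolynomial.adjoin_range_X]
    apply Algebra.adjoin_mono
    rintro _ ⟨i, rfl⟩
    exact ⟨i.1, (hσE j i.1).trans (tt_ne j i)⟩
  · intro j R _ _ g hg
    obtain ⟨c, hc⟩ := hg
    obtain ⟨t, ht⟩ : ∃ t : Fin m → R, t = fun i => (eG R g).1.1.1 (E i).1 o * (c⁻¹ : Rˣ) :=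
      ⟨_, rfl⟩
    have hc' : (eG R g).1.1.1 (E j).1 o = c := hc.symm
    have ht' : ∀ i, t i = (eG R g).1.1.1 (E i).1 o * (c⁻¹ : Rˣ) := fun i => by rw [ht]
    have htj : t j = 1 := by rw [ht', hc', Units.mul_inv]
    have htg : ∀ i, (eG R g).1.1.1 (E i).1 o = t i * (eG R g).1.1.1 (E j).1 o := by
      intro i
      rw [ht', hc', Units.inv_mul_cancel_right]
    obtain ⟨u, hu⟩ : ∃ u : MvPolynomial {i : Fin m // i ≠ j} Λ →ₐ[Λ] R,
        ∀ i, u (tt Λ j i) = t i := by
      refine ⟨MvPolynomial.aeval fun i => t i.1, fun i => ?_⟩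
      by_cases h : i = j
      · subst h
        rw [tt_self, map_one, htj]
      · rw [tt_ne j ⟨i, h⟩, MvPolynomial.aeval_X]
    have hsg : (eG R (G.map u (σ j))).1 = sg1 E j t htj := by
      rw [hσmap]
      congr 1
      funext i
      exact hu i
    have hq : qq1 E j t htj (eG R g).1 htg ∈ Gs s (r.cut o) R := by
      intro hs
      have h1 : (qq1 E j t htj (eG R g).1 htg).1.1 = ((sg1 E j t htj)⁻¹ * (eG R g).1).1.1 :=
        congrArg (fun x => x.1.1) (incl_qq1 E j t htj (eG R g).1 htg)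
      rw [h1]
      exact ((Gs s r R).mul_mem ((Gs s r R).inv_mem (hmem R j t htj)) (eG R g).2) hs
    refine ⟨⟨u, (eQ R).symm ⟨_, hq⟩⟩, ?_, ?_⟩
    · apply (eG R).injective
      apply Subtype.ext
      show (eG R g).1 = (eG R (G.map u (σ j) * inc ((eQ R).symm ⟨_, hq⟩))).1
      rw [map_mul, hinc, MulEquiv.apply_symm_apply]
      have h2 : (eG R (G.map u (σ j)) * GsIncl s (r.cut_le o) R ⟨_, hq⟩).1 =
          (eG R (G.map u (σ j))).1 * Gp.incl (r.cut_le o) R (qq1 E j t htj (eG R g).1 htg) := rfl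
      rw [h2, hsg, incl_qq1, mul_inv_cancel_left]
    · rintro ⟨u', q'⟩ h
      simp only at h
      have hw : ∀ i, (eG R g).1.1.1 (E i).1 o = u' (tt Λ j i) * (eQ R q').1.1.1 o o := by
        intro i
        conv_lhs => rw [h]
        rw [hcol, hnat, hσE]
      have hcq : (eQ R q').1.1.1 o o = c := by
        have := hw j
        rw [tt_self, map_one, one_mul] at this
        rw [← this, hc']
      have hu' : u' = u := by
        apply MvPolynomial.algHom_ext
        intro i
        have h3 := hw i.1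
        rw [hcq, htg, hc'] at h3
        have h4 := c.isUnit.mul_right_cancel h3
        rw [← tt_ne, hu, h4]
      subst hu'
      have h5 : inc q' = inc ((eQ R).symm ⟨_, hq⟩) := by
        apply mul_left_cancel (a := G.map u' (σ j))
        rw [← h]
        apply (eG R).injective
        apply Subtype.ext
        show (eG R g).1 = (eG R (G.map u' (σ j) * inc ((eQ R).symm ⟨_, hq⟩))).1
        rw [map_mul, hinc, MulEquiv.apply_symm_apply]
        have h2 : (eG R (G.map u' (σ j)) * GsIncl s (r.cut_le o) R ⟨_, hq⟩).1 =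
            (eG R (G.map u' (σ j))).1 * Gp.incl (r.cut_le o) R (qq1 E j t htj (eG R g).1 htg) := rfl
        rw [h2, hsg, incl_qq1, mul_inv_cancel_left]
      have h6 : eQ R q' = eQ R ((eQ R).symm ⟨_, hq⟩) := by
        apply GsIncl_inj s (r.cut_le o) R
        rw [← hinc, ← hinc, h5]
      have h7 := (eQ R).injective h6
      rw [h7]
  · intro j l hl
    have h1 := hσE j l
    rw [show (eG _ (σ j)).1.1.1 (E (id l)).1 o = tt Λ j l from h1, tt_ne j ⟨l, hl.ne⟩]
    exact cellHom_X_lt j ⟨l, hl.ne⟩ hl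
  · intro j f hf
    apply Ideal.le_radical
    apply cellHom_ker j f hf
    intro i hi
    apply Ideal.subset_span
    exact ⟨i.1, hi, ((hσE j i.1).trans (tt_ne j i)).symm⟩

end FlagOf

end Pool.Agent.Helper17.OCK
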