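import Pool.Agent.Helper17.OCK.Solv

/-!
# OC, block K2: the groups of determinant one, and the induction for blocks K1, K2
-/

set_option autoImplicit false

namespace Pool.Agent.Helper17.OCK

open TensorProduct
open Pool.Agent.Helper72.OC
open Pool.Agent.Helper72.OB (Pre Gp Supp diagG diagG_val Gp.ext' Gp.map_val Gp.mul_val Pre.cut
  Pre.cut_le map_diagG Gp.map_comp)

variable {n : ℕ}

section Retract

variable {Λ : Type} [CommRing Λ]

/-- a retract of a formally smooth algebra is formally smooth -/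
theorem formallySmooth_of_retract {O O' : Type} [CommRing O] [CommRing O'] [Algebra Λ O]
    [Algebra Λ O'] (i : O' →ₐ[Λ] O) (p : O →ₐ[Λ] O') (h : p.comp i = AlgHom.id Λ O')
    (hO : Algebra.FormallySmooth Λ O) : Algebra.FormallySmooth Λ O' := by
  refine Algebra.FormallySmooth.of_comp_surjective fun B _ _ I hI f => ?_
  obtain ⟨g, hg⟩ := Algebra.FormallySmooth.comp_surjective Λ O I hI (f.comp p)
  refine ⟨g.comp i, ?_⟩
  show (Ideal.Quotient.mkₐ Λ I).comp (g.comp i) = f
  have hg' : (Ideal.Quotient.mkₐ Λ I).comp g = f.comp p := hg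
  rw [← AlgHom.comp_assoc, hg', AlgHom.comp_assoc, h, AlgHom.comp_id]

/-- a finitely presented retract of a good group scheme is good -/
theorem good_of_retract {G G' : GSch Λ} (hG : G.Good) (i : G'.O →ₐ[Λ] G.O) (p : G.O →ₐ[Λ] G'.O)
    (h : p.comp i = AlgHom.id Λ G'.O) (hfp : Algebra.FinitePresentation Λ G'.O) : G'.Good := by
  have hinj : ∀ (A : Type) [CommRing A] [Algebra Λ A],
      Function.Injective (Algebra.TensorProduct.map (AlgHom.id Λ A) i) := by
    intro A _ _
    have h1 : (Algebra.TensorProduct.map (AlgHom.id Λ A) p).comp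
        (Algebra.TensorProduct.map (AlgHom.id Λ A) i) = AlgHom.id Λ (A ⊗[Λ] G'.O) := by
      rw [← Algebra.TensorProduct.map_comp, h, AlgHom.id_comp]
      exact Algebra.TensorProduct.map_id
    intro a b hab
    have h2 := congrArg (Algebra.TensorProduct.map (AlgHom.id Λ A) p) hab
    rw [← AlgHom.comp_apply, ← AlgHom.comp_apply, h1] at h2
    exact h2
  refine ⟨⟨?_, hfp⟩, fun A _ _ hA => ?_, fun A _ _ b => ?_⟩
  · exact formallySmooth_of_retract i p h hG.smooth.formallySmooth
  · have := hG.domain A hA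
    exact (hinj A).isDomain (Algebra.TensorProduct.map (AlgHom.id Λ A) i).toRingHom
  · obtain ⟨s, hs⟩ := hG.content A (Algebra.TensorProduct.map (AlgHom.id Λ A) i b)
    refine ⟨s, fun R _ _ f => ?_⟩
    rw [← hs R f, ← AlgHom.comp_apply, ← Algebra.TensorProduct.map_comp]
    have h1 : (Algebra.TensorProduct.map (f.comp (AlgHom.id Λ A)) ((AlgHom.id Λ G.O).comp i)) b =
        Algebra.TensorProduct.map (AlgHom.id Λ R) i
          (Algebra.TensorProduct.map f (AlgHom.id Λ G'.O) b) := by
      rw [← AlgHom.comp_apply (Algebra.TensorProduct.map (AlgHom.id Λ R) i),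
        ← Algebra.TensorProduct.map_comp]
      rfl
    rw [h1, map_eq_zero_iff _ (hinj R)]

end Retract

/-- the determinant as a unit -/
noncomputable def detU {r : Pre n} {R : Type} [CommRing R] (g : Gp r R) : Rˣ :=
  ((Matrix.isUnit_iff_isUnit_det _).1 g.1.isUnit).unit

theorem detU_val {r : Pre n} {R : Type} [CommRing R] (g : Gp r R) :
    (detU g : R) = g.1.1.det := IsUnit.unit_spec _

/-- retraction to determinant one -/
noncomputable def sl (r : Pre n) {R : Type} [CommRing R] (g : Gp r R) : Gp r R :=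
  g * diagG r fun i => if (i : ℕ) = 0 then (detU g)⁻¹ else 1

theorem det_sl (r : Pre n) {R : Type} [CommRing R] (g : Gp r R) : (sl r g).1.1.det = 1 := by
  cases n with
  | zero => exact Matrix.det_isEmpty
  | succ n =>
    rw [sl, Gp.mul_val, Matrix.det_mul, diagG_val, Matrix.det_diagonal, Fin.prod_univ_succ,
      ← detU_val]
    simp

theorem sl_of_det {r : Pre n} {R : Type} [CommRing R] {g : Gp r R} (hg : g.1.1.det = 1) :
    sl r g = g := by
  have h : ∀ i : Fin n, (if (i : ℕ) = 0 then (detU g)⁻¹ else 1) = (1 : Rˣ) := by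
    intro i
    split_ifs
    · rw [inv_eq_one]
      apply Units.ext
      rw [detU_val, hg, Units.val_one]
    · rfl
  rw [sl, funext h, Pool.Agent.Helper72.OB.diagG_one, mul_one]

theorem map_sl {r : Pre n} {R R' : Type} [CommRing R] [CommRing R'] (f : R →+* R') (g : Gp r R) :
    Gp.map r f (sl r g) = sl r (Gp.map r f g) := by
  rw [sl, map_mul, map_diagG, sl]
  congr 2
  funext i
  split_ifs
  · rw [map_inv]
    congr 1
    apply Units.ext
    rw [Units.coe_map, detU_val, detU_val, det_map]
    rfl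
  · exact map_one _

section SLG

variable {r : Pre n} {Λ : Type} [CommRing Λ] {G : GSch Λ}
  (e : ∀ (R : Type) [CommRing R] [Algebra Λ R], G.Pt R ≃* Gs False r R)

/-- elements of the group scheme of invertible matrices -/
def up {R : Type} [CommRing R] [Algebra Λ R] (g : Gp r R) : G.Pt R :=
  (e R).symm ⟨g, fun h => h.elim⟩

theorem e_up {R : Type} [CommRing R] [Algebra Λ R] (g : Gp r R) : (e R (up e g)).1 = g := by
  rw [up, MulEquiv.apply_symm_apply]

theorem up_e {R : Type} [CommRing R] [Algebra Λ R] (g : G.Pt R) : up e (e R g).1 = g := by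
  apply (e R).injective
  apply Subtype.ext
  rw [e_up]

/-- the ideal `det - 1` -/
def slJ : Ideal G.O := Ideal.span {(e G.O G.gen).1.1.1.det - 1}

variable (he : ∀ (R R' : Type) [CommRing R] [Algebra Λ R] [CommRing R'] [Algebra Λ R']
  (f : R →ₐ[Λ] R') (g : G.Pt R), e R' (G.map f g) = Gs.map False r (f : R →+* R') (e R g))

include he

theorem e_map {R R' : Type} [CommRing R] [Algebra Λ R] [CommRing R'] [Algebra Λ R']
    (f : R →ₐ[Λ] R') (g : G.Pt R) : (e R' (G.map f g)).1 = Gp.map r (f : R →+* R') (e R g).1 := by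
  rw [he]
  rfl

theorem sl_kill {R : Type} [CommRing R] [Algebra Λ R] (g : Gp r R) (hg : g.1.1.det = 1) :
    ∀ a ∈ slJ e, G.ev (up e g) a = 0 := by
  intro a ha
  have h1 : slJ e ≤ RingHom.ker (G.ev (up e g)) := by
    rw [slJ, Ideal.span_le, Set.singleton_subset_iff]
    show G.ev (up e g) _ = 0
    have h2 := det_map (G.ev (up e g) : G.O →+* R) (e G.O G.gen).1
    rw [← e_map e he, G.map_ev, e_up, hg] at h2
    rw [map_sub, map_one]
    exact sub_eq_zero.2 h2.symm
  exact h1 ha

theorem sl_gen :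
    (e (G.O ⧸ slJ e) (G.map (Ideal.Quotient.mkₐ Λ (slJ e)) G.gen)).1.1.1.det = 1 := by
  rw [e_map e he, det_map]
  have h1 : Ideal.Quotient.mk (slJ e) ((e G.O G.gen).1.1.1.det - 1) = 0 := by
    rw [Ideal.Quotient.eq_zero_iff_mem]
    exact Ideal.subset_span rfl
  rw [map_sub, map_one] at h1
  exact sub_eq_zero.1 h1

/-- the group scheme of matrices of determinant one -/
noncomputable def slG : GSch Λ where
  Pt := fun R _ _ => Gs True r R
  grp := fun R _ _ => inferInstance
  map := fun {R R'} _ _ _ _ f => Gs.map True r (f : R →+* R')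
  O := G.O ⧸ slJ e
  ring := inferInstance
  alg := inferInstance
  gen := ⟨(e (G.O ⧸ slJ e) (G.map (Ideal.Quotient.mkₐ Λ (slJ e)) G.gen)).1, fun _ => sl_gen e he⟩
  ev := fun {R} _ _ g => Ideal.Quotient.liftₐ (slJ e) (G.ev (up e g.1)) (sl_kill e he g.1 (g.2 trivial))
  map_ev := by
    intro R _ _ g
    apply Subtype.ext
    rw [Gs_map_coe]
    show Gp.map r _ (e (G.O ⧸ slJ e) (G.map (Ideal.Quotient.mkₐ Λ (slJ e)) G.gen)).1 = g.1
    rw [← e_map e he, ← G.map_comp, Ideal.Quotient.liftₐ_comp, G.map_ev, e_up]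
  ev_map := by
    intro R _ _ f
    apply Ideal.Quotient.algHom_ext
    rw [Ideal.Quotient.liftₐ_comp]
    have h1 : up e (Gp.map r (f : G.O ⧸ slJ e →+* R)
        (e (G.O ⧸ slJ e) (G.map (Ideal.Quotient.mkₐ Λ (slJ e)) G.gen)).1) =
          G.map (f.comp (Ideal.Quotient.mkₐ Λ (slJ e))) G.gen := by
      rw [← e_map e he, up_e, G.map_comp]
    exact (congrArg (fun g => G.ev g) h1).trans (G.ev_map _)
  map_comp := by
    intro R R' R'' _ _ _ _ _ _ f f' g
    apply Subtype.ext
    exact Gp.map_comp r (f : R →+* R') (f' : R' →+* R'') g.1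

theorem isGs_slG : IsGs True r (slG e he) :=
  ⟨fun R _ _ => MulEquiv.refl _, fun R R' _ _ _ _ f g => rfl⟩

/-- the retraction of the universal element -/
noncomputable def slUniv : (slG e he).Pt G.O := ⟨sl r (e G.O G.gen).1, fun _ => det_sl r _⟩

theorem good_slG (hG : G.Good) : (slG e he).Good := by
  refine good_of_retract hG ((slG e he).ev (slUniv e he))
    (Ideal.Quotient.mkₐ Λ (slJ e)) ?_ ?_
  · have h1 : (slG e he).map ((Ideal.Quotient.mkₐ Λ (slJ e)).comp
        ((slG e he).ev (slUniv e he))) (slG e he).gen =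
          (slG e he).map (AlgHom.id Λ (slG e he).O) (slG e he).gen := by
      rw [(slG e he).map_comp, (slG e he).map_ev]
      apply Subtype.ext
      show Gp.map r _ (sl r (e G.O G.gen).1) = Gp.map r _ _
      rw [map_sl]
      have h2 : Gp.map r (Ideal.Quotient.mkₐ Λ (slJ e) : G.O →+* G.O ⧸ slJ e) (e G.O G.gen).1 =
          (e (G.O ⧸ slJ e) (G.map (Ideal.Quotient.mkₐ Λ (slJ e)) G.gen)).1 := (e_map e he _ _).symm
      have h3 := sl_of_det (sl_gen e he)
      rw [← h2] at h3
      refine h3.trans (h2.trans ?_)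
      exact (Pool.Agent.Helper72.OB.Gp.map_id r _).symm
    have h2 := congrArg (fun g => (slG e he).ev g) h1
    exact ((slG e he).ev_map _).symm.trans (h2.trans ((slG e he).ev_map _))
  · have := hG.smooth
    exact Algebra.FinitePresentation.quotient ⟨{(e G.O G.gen).1.1.1.det - 1}, by simp [slJ]⟩

end SLG

/-- good group schemes, both cases -/
theorem exists_good (s : Prop) (r : Pre n) {Λ : Type} [CommRing Λ] {G : GSch Λ}
    (hG : IsGs False r G) (hgood : G.Good) : ∃ G' : GSch Λ, IsGs s r G' ∧ G'.Good := by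
  by_cases hs : s
  · obtain ⟨e, he⟩ := hG
    have h : s = True := eq_true hs
    subst h
    exact ⟨slG e he, isGs_slG e he, good_slG e he hgood⟩
  · have h : s = False := eq_false hs
    subst h
    exact ⟨G, hG, hgood⟩

open Classical in
/-- blocks K1 and K2 from good group schemes of invertible matrices -/
theorem exists_Gs_of (s : Prop) {Λ : Type} [CommRing Λ]
    (H : ∀ r : Pre n, ∃ G : GSch Λ, IsGs False r G ∧ G.Good) (r : Pre n) :
    ∀ G : GSch Λ, IsGs s r G → G.Good → Flagged G := by
  obtain ⟨N, hN⟩ : ∃ N, N = (Finset.univ.filter fun p : Fin n × Fin n => r.rel p.1 p.2).card :=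
    ⟨_, rfl⟩
  induction N using Nat.strong_induction_on generalizing r with
  | _ N ih =>
    intro G hG hgood
    by_cases hr : r.Antisymm
    · exact Flagged.solv G hgood (solv_of s hr hG)
    · unfold Pre.Antisymm at hr
      push Not at hr
      obtain ⟨i, o, hio, hoi, hne⟩ := hr
      obtain ⟨G₀, hG₀, hgood₀⟩ := H (r.cut o)
      obtain ⟨Q, hQ, hQg⟩ := exists_good s (r.cut o) hG₀ hgood₀
      refine Flagged.flag Q G hgood (flag_of s r o hG hQ) (ih _ ?_ (r.cut o) rfl Q hQ hQg)
      rw [hN]
      apply Finset.card_lt_card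
      rw [Finset.ssubset_iff_of_subset]
      · refine ⟨(i, o), ?_, ?_⟩
        · simpa using hio
        · simp only [Finset.mem_filter, Finset.mem_univ, true_and]
          intro h
          exact h.2 ⟨rfl, hne, hoi⟩
      · intro p hp
        simp only [Finset.mem_filter, Finset.mem_univ, true_and] at hp ⊢
        exact hp.1

/-- blocks K1 and K2 from good group schemes of invertible matrices -/
theorem exists_Gs_of_good (s : Prop) {Λ : Type} [CommRing Λ]
    (H : ∀ r : Pre n, ∃ G : GSch Λ, IsGs False r G ∧ G.Good) (r : Pre n) :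
    ∃ G : GSch Λ, IsGs s r G ∧ Flagged G := by
  obtain ⟨G, hG, hgood⟩ := H r
  obtain ⟨G', hG', hgood'⟩ := exists_good s r hG hgood
  exact ⟨G', hG', exists_Gs_of s H r G' hG' hgood'⟩

end Pool.Agent.Helper17.OCK
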