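import Pool.Agent.Helper17.OCK.Flag

/-!
# OC, blocks K1 and K2: solvable case
-/

set_option autoImplicit false

namespace Pool.Agent.Helper17.OCK

open Pool.Agent.Helper72.OC
open Pool.Agent.Helper72.OB (Pre Gp Supp diagG diagG_val Gp.ext' Gp.map_val Gp.mul_val Gp.incl Pre.cut
  Pre.cut_le map_diagG Root xel xel_val exists_list diag_inv height_lt_right xel_zero xel_add
  map_xel diagG_mul diagG_one diagG_mul_xel xel_mul_xel)

variable {n : ℕ}

/-- for antisymmetric `r` the group `Gs s r R` is contained in every subgroup which contains its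
torus and the root subgroups -/
theorem mem_of_gens (s : Prop) {r : Pre n} (hr : r.Antisymm) {R : Type} [CommRing R]
    (H : Subgroup (Gp r R))
    (h1 : ∀ u : Fin n → Rˣ, (s → ∏ i, u i = 1) → diagG r u ∈ H)
    (h2 : ∀ (k : Root r) (t : R), xel k t ∈ H) (g : Gp r R) (hgs : g ∈ Gs s r R) : g ∈ H := by
  obtain ⟨N, e, he⟩ := exists_list r
  have hx : ∀ (k : Root r) (t : R), (xel k t).1.1.det = 1 := by
    intro k t
    rw [xel_val, Matrix.det_transvection_of_ne _ _ k.ne]
  have key : ∀ l : ℕ, ∀ g : Gp r R, g ∈ Gs s r R →
      (∀ k : Root r, g.1.1 k.fst k.snd ≠ 0 → (e.symm k : ℕ) < l) → g ∈ H := by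
    intro l
    induction l with
    | zero =>
      intro g hgs hg
      have hu : ∀ j, g.1.1 j j * g⁻¹.1.1 j j = 1 := diag_inv hr g
      have h3 : g = diagG r fun j => Units.mkOfMulEqOne _ _ (hu j) := by
        apply Gp.ext'
        intro i j hij
        rw [diagG_val, Matrix.diagonal_apply]
        by_cases hd : i = j
        · subst hd
          rw [if_pos rfl, Units.val_mkOfMulEqOne]
        · rw [if_neg hd]
          by_contra hc
          exact absurd (hg ⟨i, j, hij, hd⟩ hc) (Nat.not_lt_zero _)
      rw [h3]
      apply h1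
      intro hs
      have h4 := hgs hs
      rw [h3, diagG_val, Matrix.det_diagonal] at h4
      apply Units.ext
      rw [Units.coe_prod, h4, Units.val_one]
    | succ l ih =>
      intro g hgs hg
      by_cases hl : l < N
      · obtain ⟨k, hk⟩ : ∃ k, k = e ⟨l, hl⟩ := ⟨_, rfl⟩
        have hkl : (e.symm k : ℕ) = l := by rw [hk, Equiv.symm_apply_apply]
        obtain ⟨t, ht⟩ : ∃ t, t = -(g.1.1 k.fst k.snd * g⁻¹.1.1 k.snd k.snd) := ⟨_, rfl⟩
        have h3 : xel k t * g ∈ H := by
          apply ih _ ((Gs s r R).mul_mem (fun _ => hx k t) hgs)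
          intro h hh
          rw [Gp.mul_val, xel_val] at hh
          by_cases ha : h.fst = k.fst
          · rw [ha, Matrix.transvection_mul_apply_same] at hh
            by_cases hb : h.snd = k.snd
            · exfalso
              apply hh
              rw [hb, ht]
              have h4 := diag_inv hr g k.snd
              linear_combination (-(g.1.1 k.fst k.snd)) * h4
            · by_cases hc : r.rel k.snd h.snd
              · have h5 : k.height < h.height := height_lt_right hr _ _ ha hc fun e => hb e.symm
                have h6 := he (e.symm h) (e.symm k) (by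
                  rw [Equiv.apply_symm_apply, Equiv.apply_symm_apply]
                  exact h5)
                rw [← hkl]
                exact h6
              · rw [(g.2 _ _ hc).1, mul_zero, add_zero, ← ha] at hh
                have h7 := hg h hh
                have h8 : (e.symm h : ℕ) ≠ l := by
                  intro h9
                  apply hb
                  have h10 : e.symm h = e.symm k := Fin.ext (h9.trans hkl.symm)
                  rw [e.symm.injective h10]
                omega
          · rw [Matrix.transvection_mul_apply_of_ne _ _ _ _ ha] at hh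
            have h7 := hg h hh
            have h8 : (e.symm h : ℕ) ≠ l := by
              intro h9
              apply ha
              have h10 : e.symm h = e.symm k := Fin.ext (h9.trans hkl.symm)
              rw [e.symm.injective h10]
            omega
        have h4 := H.mul_mem (H.inv_mem (h2 k t)) h3
        rwa [inv_mul_cancel_left] at h4
      · apply ih g hgs
        intro k _
        have := (e.symm k).2
        omega
  exact key N g hgs fun k _ => (e.symm k).2

/-- parametrisation of the torus by integral exponents -/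
theorem exists_torus (s : Prop) (n : ℕ) : ∃ (n' : ℕ) (M : Fin n → Fin n' → ℤ),
    ∀ (R : Type) [CommRing R], (∀ u : Fin n' → Rˣ, s → ∏ i, ∏ j, u j ^ M i j = 1) ∧
      ∀ v : Fin n → Rˣ, (s → ∏ i, v i = 1) → ∃ u : Fin n' → Rˣ, ∀ i, v i = ∏ j, u j ^ M i j := by
  classical
  by_cases hs : s
  · cases n with
    | zero =>
      refine ⟨0, fun _ _ => 0, fun R _ => ⟨fun u _ => by simp, fun v _ => ⟨1, fun i => i.elim0⟩⟩⟩
    | succ n =>
      refine ⟨n, fun i j => if i = j.castSucc then 1 else if i = Fin.last n then -1 else 0,
        fun R _ => ⟨fun u _ => ?_, fun v hv => ⟨fun j => v j.castSucc, fun i => ?_⟩⟩⟩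
      · rw [Fin.prod_univ_castSucc]
        have h1 : ∀ i : Fin n, ∏ j : Fin n, u j ^ (if i.castSucc = j.castSucc then (1 : ℤ) else
            if i.castSucc = Fin.last n then -1 else 0) = u i := by
          intro i
          rw [Finset.prod_eq_single i]
          · simp
          · intro j _ hj
            have h2 : ¬ (i.castSucc = j.castSucc) := fun h => hj (Fin.castSucc_injective _ h).symm
            rw [if_neg h2, if_neg (Fin.castSucc_lt_last i).ne, zpow_zero]
          · intro h
            exact absurd (Finset.mem_univ _) h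
        have h2 : ∏ j : Fin n, u j ^ (if Fin.last n = j.castSucc then (1 : ℤ) else
            if Fin.last n = Fin.last n then -1 else 0) = (∏ j, u j)⁻¹ := by
          rw [← Finset.prod_inv_distrib]
          refine Finset.prod_congr rfl fun j _ => ?_
          rw [if_neg (Fin.castSucc_lt_last j).ne', if_pos rfl, zpow_neg, zpow_one]
        rw [h2, Finset.prod_congr rfl fun i _ => h1 i, mul_inv_cancel]
      · have hv' := hv hs
        rw [Fin.prod_univ_castSucc] at hv'
        refine Fin.lastCases ?_ (fun i => ?_) i
        · have h2 : ∏ j : Fin n, v j.castSucc ^ (if Fin.last n = j.castSucc then (1 : ℤ) else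
              if Fin.last n = Fin.last n then -1 else 0) = (∏ j : Fin n, v j.castSucc)⁻¹ := by
            rw [← Finset.prod_inv_distrib]
            refine Finset.prod_congr rfl fun j _ => ?_
            rw [if_neg (Fin.castSucc_lt_last j).ne', if_pos rfl, zpow_neg, zpow_one]
          rw [h2]
          exact eq_inv_of_mul_eq_one_right hv'
        · rw [Finset.prod_eq_single i]
          · simp
          · intro j _ hj
            have h2 : ¬ (i.castSucc = j.castSucc) := fun h => hj (Fin.castSucc_injective _ h).symm
            simp only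
            rw [if_neg h2, if_neg (Fin.castSucc_lt_last i).ne, zpow_zero]
          · intro h
            exact absurd (Finset.mem_univ _) h
  · refine ⟨n, fun i j => if i = j then 1 else 0, fun R _ => ⟨fun u h => absurd h hs,
      fun v _ => ⟨v, fun i => ?_⟩⟩⟩
    rw [Finset.prod_eq_single i]
    · simp
    · intro j _ hj
      simp only
      rw [if_neg (Ne.symm hj), zpow_zero]
    · intro h
      exact absurd (Finset.mem_univ _) h

/-- for antisymmetric `r` the groups of invertible matrices and of matrices of determinant one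
supported on `r` are split solvable -/
theorem solv_of (s : Prop) {r : Pre n} (hr : r.Antisymm) {Λ : Type} [CommRing Λ] {G : GSch Λ}
    (hG : IsGs s r G) : Nonempty (Solv G) := by
  classical
  obtain ⟨eG, hG⟩ := hG
  obtain ⟨N, e, he⟩ := exists_list r
  obtain ⟨n', M, hM⟩ := exists_torus s n
  have hx : ∀ (k : Root r) (R : Type) [CommRing R] (t : R), xel k t ∈ Gs s r R := by
    intro k R _ t _
    rw [xel_val, Matrix.det_transvection_of_ne _ _ k.ne]
  have hd : ∀ (R : Type) [CommRing R] (v : Fin n → Rˣ), (s → ∏ i, v i = 1) →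
      diagG r v ∈ Gs s r R := by
    intro R _ v hv hs
    rw [diagG_val, Matrix.det_diagonal, ← Units.coe_prod, hv hs, Units.val_one]
  obtain ⟨L, hL⟩ : ∃ L : ∀ {R : Type} [CommRing R], (Fin n' → Rˣ) → Fin n → Rˣ,
      ∀ {R : Type} [CommRing R] (u : Fin n' → Rˣ) (i : Fin n), L u i = ∏ j, u j ^ M i j :=
    ⟨fun {R} _ u i => ∏ j, u j ^ M i j, fun _ _ => rfl⟩
  have hLs : ∀ (R : Type) [CommRing R] (u : Fin n' → Rˣ), s → ∏ i, L u i = 1 := by
    intro R _ u hs
    rw [Finset.prod_congr rfl fun i _ => hL u i]
    exact (hM R).1 u hs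
  -- the root subgroups and the torus
  obtain ⟨x, hxc⟩ : ∃ x : Fin N → ∀ {R : Type} [CommRing R] [Algebra Λ R], R → G.Pt R,
      ∀ (k : Fin N) {R : Type} [CommRing R] [Algebra Λ R] (c : R),
        eG R (x k c) = ⟨xel (e k) c, hx (e k) R c⟩ :=
    ⟨fun k {R} _ _ c => (eG R).symm ⟨xel (e k) c, hx (e k) R c⟩,
      fun k {R} _ _ c => (eG R).apply_symm_apply _⟩
  obtain ⟨t, ht⟩ : ∃ t : ∀ {R : Type} [CommRing R] [Algebra Λ R], (Fin n' → Rˣ) →* G.Pt R,
      ∀ {R : Type} [CommRing R] [Algebra Λ R] (u : Fin n' → Rˣ),
        eG R (t u) = ⟨diagG r (L u), hd R _ (hLs R u)⟩ := by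
    refine ⟨fun {R} _ _ =>
      { toFun := fun u => (eG R).symm ⟨diagG r (L u), hd R _ (hLs R u)⟩
        map_one' := ?_
        map_mul' := ?_ }, fun {R} _ _ u => (eG R).apply_symm_apply _⟩
    · rw [MulEquiv.symm_apply_eq, map_one]
      apply Subtype.ext
      show diagG r (L (1 : Fin n' → Rˣ)) = 1
      rw [← diagG_one R (r := r)]
      congr 1
      funext i
      rw [hL]
      simp
    · intro u v
      rw [MulEquiv.symm_apply_eq, map_mul, MulEquiv.apply_symm_apply, MulEquiv.apply_symm_apply]
      apply Subtype.ext
      show diagG r (L (u * v)) = diagG r (L u) * diagG r (L v)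
      rw [← diagG_mul]
      congr 1
      funext i
      rw [hL, hL, hL, ← Finset.prod_mul_distrib]
      refine Finset.prod_congr rfl fun j _ => ?_
      rw [Pi.mul_apply, mul_zpow]
  have hxv : ∀ (k : Fin N) (R : Type) [CommRing R] [Algebra Λ R] (c : R),
      (eG R (x k c)).1 = xel (e k) c := fun k R _ _ c => congrArg Subtype.val (hxc k c)
  have htv : ∀ (R : Type) [CommRing R] [Algebra Λ R] (u : Fin n' → Rˣ),
      (eG R (t u)).1 = diagG r (L u) := fun R _ _ u => congrArg Subtype.val (ht u)
  -- an equality in `G`
  have hext : ∀ (R : Type) [CommRing R] [Algebra Λ R] (g h : G.Pt R),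
      (eG R g).1 = (eG R h).1 → g = h := fun R _ _ g h H => (eG R).injective (Subtype.ext H)
  have hmul : ∀ (R : Type) [CommRing R] [Algebra Λ R] (g h : G.Pt R),
      (eG R (g * h)).1 = (eG R g).1 * (eG R h).1 := fun R _ _ g h => by rw [map_mul]; rfl
  refine ⟨{
    N := N
    n := n'
    x := x
    t := t
    β := fun k j => M (e k).fst j - M (e k).snd j
    x_nat := ?_
    t_nat := ?_
    x_zero := ?_
    x_add := ?_
    conj := ?_
    comm := ?_
    gen := ?_ }⟩
  · intro k R R' _ _ _ _ f c
    apply hext
    rw [hG, hxc, hxv]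
    exact map_xel (e k) (f : R →+* R') c
  · intro R R' _ _ _ _ f u
    apply hext
    rw [hG, ht, htv]
    show Gp.map r (f : R →+* R') (diagG r (L u)) = _
    rw [map_diagG]
    congr 1
    funext i
    rw [hL, hL, map_prod]
    refine Finset.prod_congr rfl fun j _ => ?_
    rw [map_zpow]
    rfl
  · intro k R _ _
    apply hext
    rw [hxv, map_one, xel_zero]
    rfl
  · intro k R _ _ a b
    have h : x k (a + b) = x k a * x k b := by
      apply hext
      rw [hmul, hxv, hxv, hxv, xel_add]
    rw [h, mul_inv_cancel]
    exact Subgroup.one_mem _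
  · intro k R _ _ u a
    have h : t u * x k a = x k (((∏ i, u i ^ (M (e k).fst i - M (e k).snd i) : Rˣ) : R) * a) *
        t u := by
      apply hext
      rw [hmul, hmul, hxv, hxv, htv, diagG_mul_xel]
      congr 2
      have h1 : ∏ i, u i ^ (M (e k).fst i - M (e k).snd i) =
          L u (e k).fst * (L u (e k).snd)⁻¹ := by
        rw [hL, hL, ← Finset.prod_inv_distrib, ← Finset.prod_mul_distrib]
        refine Finset.prod_congr rfl fun j _ => ?_
        rw [zpow_sub]
      rw [h1, Units.val_mul]
      ring
    rw [h, mul_inv_cancel]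
    exact Subgroup.one_mem _
  · intro k l hlk R _ _ a b
    rcases xel_mul_xel hr (e l) (e k) a b with h | ⟨h, c, h1, h2, h3⟩
    · have h4 : x k a * x l b = x l b * x k a := by
        apply hext
        rw [hmul, hmul, hxv, hxv, h]
      rw [h4, mul_inv_cancel]
      exact Subgroup.one_mem _
    · have h4 : x k a * x l b = x (e.symm h) c * (x l b * x k a) := by
        apply hext
        rw [hmul, hmul, hmul, hxv, hxv, hxv, h3, e.apply_symm_apply]
      rw [h4, mul_inv_cancel_right]
      apply Subgroup.subset_closure
      refine ⟨e.symm h, he _ _ ?_, c, rfl⟩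
      rw [e.apply_symm_apply]
      exact h2
  · intro R _ _
    rw [eq_top_iff]
    intro g _
    obtain ⟨K, hK⟩ : ∃ K : Subgroup (G.Pt R), K = Subgroup.closure
        ({g : G.Pt R | ∃ k c, g = x k c} ∪ {g | ∃ u, g = t u}) := ⟨_, rfl⟩
    rw [← hK]
    have h1 := mem_of_gens s hr
      ((K.map (eG R).toMonoidHom).map (Gs s r R).subtype) ?_ ?_ (eG R g).1 (eG R g).2
    · obtain ⟨g', ⟨g'', hg'', rfl⟩, hg'⟩ := h1
      have : g'' = g := hext R _ _ hg'
      rwa [← this]
    · intro v hv
      obtain ⟨u, hu⟩ := (hM R).2 v hv
      refine ⟨eG R (t u), ⟨t u, ?_, rfl⟩, ?_⟩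
      · rw [hK]
        exact Subgroup.subset_closure (Or.inr ⟨u, rfl⟩)
      · show (eG R (t u)).1 = _
        rw [htv]
        congr 1
        funext i
        rw [hL, hu]
    · intro k c
      refine ⟨eG R (x (e.symm k) c), ⟨x (e.symm k) c, ?_, rfl⟩, ?_⟩
      · rw [hK]
        exact Subgroup.subset_closure (Or.inl ⟨_, _, rfl⟩)
      · show (eG R (x (e.symm k) c)).1 = _
        rw [hxv, e.apply_symm_apply]

end Pool.Agent.Helper17.OCK
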